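import Mathlib
import Pool.Agent.H17.ParityConway

set_option autoImplicit false

namespace Pool.Agent.Results.MP_c3a542_nt.NoLimit

open Filter Topology

def IsSeq (b : ℕ → ℤ) : Prop :=
  b 1 = 1 ∧ b 2 = 1 ∧ ∀ n : ℕ, 3 ≤ n → 1 ≤ b (n - 1) ∧ b (n - 1) ≤ (n : ℤ) - 1 ∧
    b n = b (b (n - 1)).toNat + b ((n : ℤ) - b (n - 1)).toNat + (-1) ^ n

open Pool.Agent.H17.ParityConway in
theorem result : (∃ b : ℕ → ℤ, IsSeq b) ∧ ∀ b : ℕ → ℤ, IsSeq b →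
    (∃ᶠ n : ℕ in atTop, (313 / 1000 : ℝ) ≤ (b n : ℝ) / n) ∧
    ¬ Tendsto (fun n : ℕ => (b n : ℝ) / n) atTop (𝓝 (1 / (2 * Real.goldenRatio))) := by
  constructor
  · refine ⟨b0, b0_rec.1, b0_rec.2.1, fun n hn => ?_⟩
    obtain ⟨h1, h2⟩ := guards b0_rec (n - 1) (by omega)
    have h3 : b0 (n - 1) ≤ (n : ℤ) - 1 := by omega
    exact ⟨h1, h3, b0_rec.2.2 n hn h1 h3⟩
  · intro b hb
    have hr : Rec b := ⟨hb.1, hb.2.1, fun n hn _ _ => (hb.2.2 n hn).2.2⟩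
    obtain ⟨o, e, h, h1, -⟩ := rec_sys hr
    have hf : ∃ᶠ n : ℕ in atTop, (313 / 1000 : ℝ) ≤ (b n : ℝ) / n := by
      rw [frequently_atTop]
      intro N
      obtain ⟨x, hx, hx2⟩ := freq h N
      refine ⟨2 * x + 1, by omega, ?_⟩
      have h3 : (313 : ℝ) * (2 * x + 1) ≤ 1000 * (2 * o x + 1) := by exact_mod_cast hx2
      rw [h1, le_div_iff₀ (by positivity)]
      push_cast
      linarith
    refine ⟨hf, fun ht => ?_⟩
    have h5 : (11 / 5 : ℝ) < √5 := Real.lt_sqrt_of_sq_lt (by norm_num)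
    have hlt : 1 / (2 * Real.goldenRatio) < (313 / 1000 : ℝ) := by
      rw [div_lt_iff₀ (by positivity), Real.goldenRatio]
      linarith
    obtain ⟨n, hn1, hn2⟩ := (hf.and_eventually (ht.eventually_lt_const hlt)).exists
    linarith

end Pool.Agent.Results.MP_c3a542_nt.NoLimit
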